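import Pool.Agent.helper71.AA.Defs

/-! # Project AA: module H2, averages of the correlation factor -/

namespace Pool.Agent.helper71.AA

open Finset

/-- product as a natural number -/
def H2_g (K : Finset ℕ) : ℕ := ∏ l ∈ K, l

/-- weight -/
noncomputable def H2_wt (K : Finset ℕ) : ℝ := ∏ l ∈ K, (200 / ((l : ℝ) - 1))

theorem H2_wt_nonneg (K : Finset ℕ) (hK : ∀ l ∈ K, l.Prime) : 0 ≤ H2_wt K := by
  apply Finset.prod_nonneg
  intro l hl
  have h2 : (2 : ℝ) ≤ (l : ℝ) := by exact_mod_cast (hK l hl).two_le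
  apply div_nonneg (by norm_num) (by linarith)

theorem H2_g_pos (K : Finset ℕ) (hK : ∀ l ∈ K, l.Prime) : 1 ≤ H2_g K :=
  Nat.succ_le_of_lt (Finset.prod_pos (fun l hl => (hK l hl).pos))

theorem H2_tot (K : Finset ℕ) (hK : ∀ l ∈ K, l.Prime) :
    ((Nat.totient (H2_g K) : ℕ) : ℝ) = ∏ l ∈ K, ((l : ℝ) - 1) := by
  induction K using Finset.induction_on with
  | empty => simp [H2_g]
  | insert a s ha ih =>
    have hap : a.Prime := hK a (Finset.mem_insert_self a s)
    have hs : ∀ l ∈ s, l.Prime := fun l hl => hK l (Finset.mem_insert_of_mem hl)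
    have hcop : Nat.Coprime a (H2_g s) := by
      apply Nat.Coprime.prod_right
      intro l hl
      rw [Nat.coprime_primes hap (hs l hl)]
      rintro rfl
      exact ha hl
    have hg : H2_g (insert a s) = a * H2_g s := by
      unfold H2_g
      rw [Finset.prod_insert ha]
    rw [hg, Nat.totient_mul hcop, Nat.totient_prime hap, Finset.prod_insert ha, Nat.cast_mul,
      ih hs, Nat.cast_sub hap.one_le, Nat.cast_one]

/-- divisor expansion of `Hd` -/
theorem H2_exp (w : ℕ) (P : ℝ) (m : ℕ) (hm : m ≠ 0) (hmP : (m : ℝ) ≤ 2 * P) :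
    Hd w 200 m - 1 ≤ ∑ K ∈ (Qs w ⌊2 * P⌋₊).powerset.erase ∅,
      (if H2_g K ∣ m then H2_wt K else 0) := by
  have hsub : m.primeFactors.filter (fun l => w < l) ⊆ Qs w ⌊2 * P⌋₊ := by
    intro l hl
    rw [Finset.mem_filter, Nat.mem_primeFactors] at hl
    unfold Qs
    rw [Finset.mem_filter, Finset.mem_Ioc]
    refine ⟨⟨hl.2, ?_⟩, hl.1.1⟩
    have h1 : l ≤ m := Nat.le_of_dvd (Nat.pos_of_ne_zero hm) hl.1.2.1
    apply Nat.le_floor
    exact le_trans (by exact_mod_cast h1) hmP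
  have h1 : Hd w 200 m - 1 = ∑ K ∈ (m.primeFactors.filter (fun l => w < l)).powerset.erase ∅,
      H2_wt K := by
    unfold Hd
    rw [Finset.prod_one_add, ← Finset.sum_erase_add _ _ (Finset.empty_mem_powerset _)]
    simp [H2_wt]
  rw [h1]
  have h2 : ∀ K ∈ (m.primeFactors.filter (fun l => w < l)).powerset.erase ∅,
      H2_wt K = (if H2_g K ∣ m then H2_wt K else 0) := by
    intro K hK
    rw [Finset.mem_erase, Finset.mem_powerset] at hK
    rw [if_pos]
    have h3 : H2_g K ∣ ∏ l ∈ m.primeFactors, l := by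
      apply Finset.prod_dvd_prod_of_subset
      intro l hl
      exact (Finset.mem_filter.mp (hK.2 hl)).1
    exact h3.trans (Nat.prod_primeFactors_dvd m)
  rw [Finset.sum_congr rfl h2]
  apply Finset.sum_le_sum_of_subset_of_nonneg
  · intro K hK
    rw [Finset.mem_erase, Finset.mem_powerset] at hK ⊢
    exact ⟨hK.1, hK.2.trans hsub⟩
  · intro K hK _
    rw [Finset.mem_erase, Finset.mem_powerset] at hK
    split_ifs
    · apply H2_wt_nonneg
      intro l hl
      have := hK.2 hl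
      unfold Qs at this
      exact (Finset.mem_filter.mp this).2
    · exact le_refl _

theorem H2_tele (w N : ℕ) (hw : 2 ≤ w) (hN : w ≤ N) :
    ∑ l ∈ Ioc w N, 1 / ((l : ℝ) - 1) ^ 2 ≤ 1 / ((w : ℝ) - 1) - 1 / ((N : ℝ) - 1 ) := by
  induction N, hN using Nat.le_induction with
  | base => simp
  | succ n hn ih =>
    rw [← Finset.insert_Ioc_right_eq_Ioc_add_one (by omega), Finset.sum_insert (by simp)]
    have h2 : (2 : ℝ) ≤ (n : ℝ) := by exact_mod_cast (hw.trans hn)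
    push_cast
    have h3 : 1 / ((n : ℝ) + 1 - 1) ^ 2 ≤ 1 / ((n : ℝ) - 1) - 1 / ((n : ℝ) + 1 - 1) := by
      have h4 : (n : ℝ) + 1 - 1 = n := by ring
      rw [h4, div_sub_div _ _ (by linarith) (by linarith), div_le_div_iff₀ (by positivity)
        (by nlinarith)]
      nlinarith
    linarith

/-- the sum over the small moduli -/
theorem H2_small (w Z : ℕ) (hw : 200 ≤ w) :
    ∑ K ∈ (Qs w Z).powerset.erase ∅, H2_wt K / ((Nat.totient (H2_g K) : ℕ) : ℝ) ≤ 1000 / w := by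
  have hwR : (200 : ℝ) ≤ (w : ℝ) := by exact_mod_cast hw
  have h1 : ∑ K ∈ (Qs w Z).powerset.erase ∅, H2_wt K / ((Nat.totient (H2_g K) : ℕ) : ℝ) =
      ∏ l ∈ Qs w Z, (1 + 200 / ((l : ℝ) - 1) / ((l : ℝ) - 1)) - 1 := by
    rw [Finset.prod_one_add, ← Finset.sum_erase_add _ _ (Finset.empty_mem_powerset _)]
    simp only [Finset.prod_empty, add_sub_cancel_right]
    apply Finset.sum_congr rfl
    intro K hK
    rw [Finset.mem_erase, Finset.mem_powerset] at hK
    have hKp : ∀ l ∈ K, l.Prime := by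
      intro l hl
      have := hK.2 hl
      unfold Qs at this
      exact (Finset.mem_filter.mp this).2
    rw [H2_tot K hKp, H2_wt, ← Finset.prod_div_distrib]
  rw [h1]
  have hpos : ∀ l ∈ Qs w Z, (1 : ℝ) < (l : ℝ) - 1 := by
    intro l hl
    unfold Qs at hl
    rw [Finset.mem_filter, Finset.mem_Ioc] at hl
    have : (w : ℝ) < (l : ℝ) := by exact_mod_cast hl.1.1
    linarith
  have h2 : ∏ l ∈ Qs w Z, (1 + 200 / ((l : ℝ) - 1) / ((l : ℝ) - 1)) ≤
      Real.exp (∑ l ∈ Qs w Z, 200 / ((l : ℝ) - 1) / ((l : ℝ) - 1)) := by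
    rw [Real.exp_sum]
    apply Finset.prod_le_prod
    · intro l hl
      have := hpos l hl
      positivity
    · intro l hl
      have := Real.add_one_le_exp (200 / ((l : ℝ) - 1) / ((l : ℝ) - 1))
      linarith
  have h3 : ∑ l ∈ Qs w Z, 200 / ((l : ℝ) - 1) / ((l : ℝ) - 1) ≤ 200 / ((w : ℝ) - 1) := by
    rcases Nat.lt_or_ge Z w with hZ | hZ
    · have : Qs w Z = ∅ := by
        unfold Qs
        rw [Finset.Ioc_eq_empty (by omega)]
        rfl
      rw [this, Finset.sum_empty]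
      apply div_nonneg (by norm_num) (by linarith)
    · have h4 := H2_tele w Z (by omega) hZ
      have hZR : (w : ℝ) ≤ (Z : ℝ) := by exact_mod_cast hZ
      have h5 : ∑ l ∈ Qs w Z, 200 / ((l : ℝ) - 1) / ((l : ℝ) - 1) ≤
          200 * ∑ l ∈ Ioc w Z, 1 / ((l : ℝ) - 1) ^ 2 := by
        rw [Finset.mul_sum]
        unfold Qs
        refine le_trans (Finset.sum_le_sum_of_subset_of_nonneg (Finset.filter_subset _ _) ?_) ?_
        · intro l hl _
          rw [Finset.mem_Ioc] at hl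
          have : (w : ℝ) < (l : ℝ) := by exact_mod_cast hl.1
          have : (0 : ℝ) < (l : ℝ) - 1 := by linarith
          positivity
        · apply Finset.sum_le_sum
          intro l hl
          rw [div_div, ← sq]
          apply le_of_eq
          ring
      have h6 : 0 ≤ 1 / ((Z : ℝ) - 1) := by
        apply div_nonneg (by norm_num) (by linarith)
      calc _ ≤ _ := h5
        _ ≤ 200 * (1 / ((w : ℝ) - 1)) := by
            apply mul_le_mul_of_nonneg_left _ (by norm_num)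
            linarith
        _ = _ := by ring
  set t : ℝ := 200 / ((w : ℝ) - 1) with ht
  have ht0 : 0 < t := by
    rw [ht]
    apply div_pos (by norm_num) (by linarith)
  have ht1 : t ≤ 200 / 199 := by
    rw [ht]
    apply div_le_div_of_nonneg_left (by norm_num) (by norm_num) (by linarith)
  have hexp : Real.exp t ≤ 1 + 4 * t := by
    -- exp t ≤ exp (200/199) ≤ ..., use (exp t - 1) ≤ t * exp t
    have h7 : 1 - t ≤ Real.exp (-t) := by
      have := Real.add_one_le_exp (-t)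
      linarith
    have h8 : Real.exp t * Real.exp (-t) = 1 := by
      rw [← Real.exp_add]; simp
    have h9 : Real.exp t ≤ 3 := by
      have h10 : Real.exp t ≤ Real.exp (200 / 199) := Real.exp_le_exp.mpr ht1
      have h11 : Real.exp (200 / 199) = Real.exp 1 * Real.exp (1 / 199) := by
        rw [← Real.exp_add]; norm_num
      have h12 : Real.exp 1 < 2.7182818286 := Real.exp_one_lt_d9
      have h13 : Real.exp (1 / 199) ≤ 1.01 := by
        have h14 : 1 - 1 / 199 ≤ Real.exp (-(1 / 199 : ℝ)) := by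
          have := Real.add_one_le_exp (-(1 / 199 : ℝ))
          linarith
        have h15 : Real.exp (1 / 199) * Real.exp (-(1 / 199 : ℝ)) = 1 := by
          rw [← Real.exp_add]; simp
        have h16 := Real.exp_pos (1 / 199 : ℝ)
        nlinarith
      have h17 := Real.exp_pos (1 : ℝ)
      have h18 := Real.exp_pos (1 / 199 : ℝ)
      rw [h11] at h10
      nlinarith
    have h19 := Real.exp_pos t
    nlinarith
  have h20 : 4 * t ≤ 1000 / w := by
    rw [ht, ← mul_div_assoc, div_le_div_iff₀ (by linarith) (by linarith)]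
    linarith
  have h21 := Real.exp_le_exp.mpr h3
  linarith

/-- the sum over the large moduli -/
theorem H2_large : ∃ C : ℝ, 0 < C ∧ ∀ w Z : ℕ, 2 ≤ w →
    ∑ K ∈ (Qs w Z).powerset, H2_wt K * (H2_g K : ℝ) ^ (-(3 / 4) : ℝ) ≤ C := by
  have hs : Summable (fun n : ℕ => 1 / (n : ℝ) ^ (7 / 4 : ℝ)) :=
    Real.summable_one_div_nat_rpow.mpr (by norm_num)
  refine ⟨Real.exp (400 * ∑' n : ℕ, 1 / (n : ℝ) ^ (7 / 4 : ℝ)), Real.exp_pos _, ?_⟩
  intro w Z hw
  have hmem : ∀ l ∈ Qs w Z, l.Prime := by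
    intro l hl
    unfold Qs at hl
    exact (Finset.mem_filter.mp hl).2
  have h1 : ∑ K ∈ (Qs w Z).powerset, H2_wt K * (H2_g K : ℝ) ^ (-(3 / 4) : ℝ) =
      ∏ l ∈ Qs w Z, (1 + 200 / ((l : ℝ) - 1) * (l : ℝ) ^ (-(3 / 4) : ℝ)) := by
    rw [Finset.prod_one_add]
    apply Finset.sum_congr rfl
    intro K hK
    rw [Finset.mem_powerset] at hK
    rw [Finset.prod_mul_distrib, H2_wt, H2_g]
    congr 1
    push_cast
    rw [Real.finsetProd_rpow]
    intro i _
    positivity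
  rw [h1]
  have h2 : ∏ l ∈ Qs w Z, (1 + 200 / ((l : ℝ) - 1) * (l : ℝ) ^ (-(3 / 4) : ℝ)) ≤
      Real.exp (∑ l ∈ Qs w Z, 200 / ((l : ℝ) - 1) * (l : ℝ) ^ (-(3 / 4) : ℝ)) := by
    rw [Real.exp_sum]
    apply Finset.prod_le_prod
    · intro l hl
      have h2 : (2 : ℝ) ≤ (l : ℝ) := by exact_mod_cast (hmem l hl).two_le
      have : 0 < (l : ℝ) - 1 := by linarith
      positivity
    · intro l hl
      have := Real.add_one_le_exp (200 / ((l : ℝ) - 1) * (l : ℝ) ^ (-(3 / 4) : ℝ))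
      linarith
  refine h2.trans (Real.exp_le_exp.mpr ?_)
  have h3 : ∑ l ∈ Qs w Z, 200 / ((l : ℝ) - 1) * (l : ℝ) ^ (-(3 / 4) : ℝ) ≤
      ∑ l ∈ Qs w Z, 400 * (1 / (l : ℝ) ^ (7 / 4 : ℝ)) := by
    apply Finset.sum_le_sum
    intro l hl
    have h2 : (2 : ℝ) ≤ (l : ℝ) := by exact_mod_cast (hmem l hl).two_le
    have hl0 : (0 : ℝ) < (l : ℝ) := by linarith
    have h4 : 1 / (l : ℝ) ^ (7 / 4 : ℝ) = 1 / (l : ℝ) * (l : ℝ) ^ (-(3 / 4) : ℝ) := by
      rw [Real.rpow_neg hl0.le, ← one_div, one_div_mul_one_div]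
      congr 1
      rw [show (7 / 4 : ℝ) = 1 + 3 / 4 by norm_num, Real.rpow_add hl0, Real.rpow_one]
    rw [h4, ← mul_assoc]
    apply mul_le_mul_of_nonneg_right _ (by positivity)
    rw [← mul_div_assoc, div_le_div_iff₀ (by linarith) hl0]
    linarith
  refine h3.trans ?_
  rw [← Finset.mul_sum]
  apply mul_le_mul_of_nonneg_left _ (by norm_num)
  apply hs.sum_le_tsum
  intro i _
  positivity

/-- the average over one variable -/
theorem H2_core (C₂ : ℝ) (hC₂ : ∀ w Z : ℕ, 2 ≤ w →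
    ∑ K ∈ (Qs w Z).powerset, H2_wt K * (H2_g K : ℝ) ^ (-(3 / 4) : ℝ) ≤ C₂) (w : ℕ) (hw : 200 ≤ w)
    (P T : ℝ) (hP : 1 ≤ P) (hT : 0 ≤ T) (S : Finset ℕ) (m : ℕ → ℕ) (hm : ∀ q ∈ S, m q ≠ 0)
    (hmP : ∀ q ∈ S, (m q : ℝ) ≤ 2 * P)
    (hA : ∀ g : ℕ, g.Coprime (primorial w) → 1 ≤ g → (g : ℝ) ≤ P ^ (1 / 4 : ℝ) →
      (((S.filter (fun q => g ∣ m q)).card : ℕ) : ℝ) ≤ T / (Nat.totient g : ℝ))
    (hB : ∀ g : ℕ, 1 ≤ g → (((S.filter (fun q => g ∣ m q)).card : ℕ) : ℝ) ≤ 3 * P / g) :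
    ∑ q ∈ S, (Hd w 200 (m q) - 1) ≤ T * (1000 / w) + 3 * C₂ * P ^ (15 / 16 : ℝ) := by
  have hP0 : 0 < P := by linarith
  have h1 : ∑ q ∈ S, (Hd w 200 (m q) - 1) ≤ ∑ q ∈ S, ∑ K ∈ (Qs w ⌊2 * P⌋₊).powerset.erase ∅,
      (if H2_g K ∣ m q then H2_wt K else 0) :=
    Finset.sum_le_sum (fun q hq => H2_exp w P (m q) (hm q hq) (hmP q hq))
  refine h1.trans ?_
  rw [Finset.sum_comm]
  have hmem : ∀ K ∈ (Qs w ⌊2 * P⌋₊).powerset, (∀ l ∈ K, l.Prime ∧ w < l) := by
    intro K hK l hl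
    rw [Finset.mem_powerset] at hK
    have := hK hl
    unfold Qs at this
    rw [Finset.mem_filter, Finset.mem_Ioc] at this
    exact ⟨this.2, this.1.1⟩
  have h2 : ∀ K ∈ (Qs w ⌊2 * P⌋₊).powerset.erase ∅,
      ∑ q ∈ S, (if H2_g K ∣ m q then H2_wt K else 0) ≤
        T * (H2_wt K / ((Nat.totient (H2_g K) : ℕ) : ℝ)) +
        3 * P ^ (15 / 16 : ℝ) * (H2_wt K * (H2_g K : ℝ) ^ (-(3 / 4) : ℝ)) := by
    intro K hK
    have hK' := hmem K (Finset.mem_of_mem_erase hK)
    have hwt : 0 ≤ H2_wt K := H2_wt_nonneg K (fun l hl => (hK' l hl).1)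
    have hg1 : 1 ≤ H2_g K := H2_g_pos K (fun l hl => (hK' l hl).1)
    have hgR : (1 : ℝ) ≤ (H2_g K : ℝ) := by exact_mod_cast hg1
    rw [← Finset.sum_filter, Finset.sum_const, nsmul_eq_mul]
    rcases le_or_gt (H2_g K : ℝ) (P ^ (1 / 4 : ℝ)) with hg | hg
    · have hcop : (H2_g K).Coprime (primorial w) := by
        apply Nat.Coprime.prod_left
        intro l hl
        unfold primorial
        apply Nat.Coprime.prod_right
        intro r hr
        rw [Finset.mem_filter, Finset.mem_range] at hr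
        rw [Nat.coprime_primes (hK' l hl).1 hr.2]
        have := (hK' l hl).2
        omega
      have h3 := hA (H2_g K) hcop hg1 hg
      have h4 : (((S.filter (fun q => H2_g K ∣ m q)).card : ℕ) : ℝ) * H2_wt K ≤
          T / (Nat.totient (H2_g K) : ℝ) * H2_wt K := mul_le_mul_of_nonneg_right h3 hwt
      have h5 : 0 ≤ 3 * P ^ (15 / 16 : ℝ) * (H2_wt K * (H2_g K : ℝ) ^ (-(3 / 4) : ℝ)) := by
        positivity
      have h6 : T / (Nat.totient (H2_g K) : ℝ) * H2_wt K =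
          T * (H2_wt K / ((Nat.totient (H2_g K) : ℕ) : ℝ)) := by ring
      linarith
    · have h3 := hB (H2_g K) hg1
      have h4 : (((S.filter (fun q => H2_g K ∣ m q)).card : ℕ) : ℝ) * H2_wt K ≤
          3 * P / (H2_g K : ℝ) * H2_wt K := mul_le_mul_of_nonneg_right h3 hwt
      have h5 : 0 ≤ T * (H2_wt K / ((Nat.totient (H2_g K) : ℕ) : ℝ)) := by
        positivity
      have h6 : 3 * P / (H2_g K : ℝ) * H2_wt K ≤
          3 * P ^ (15 / 16 : ℝ) * (H2_wt K * (H2_g K : ℝ) ^ (-(3 / 4) : ℝ)) := by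
        have hg0 : (0 : ℝ) < (H2_g K : ℝ) := by linarith
        have h7 : P ^ (1 / 16 : ℝ) ≤ (H2_g K : ℝ) ^ (1 / 4 : ℝ) := by
          have h8 : P ^ (1 / 16 : ℝ) = (P ^ (1 / 4 : ℝ)) ^ (1 / 4 : ℝ) := by
            rw [← Real.rpow_mul hP0.le]; norm_num
          rw [h8]
          exact Real.rpow_le_rpow (by positivity) hg.le (by norm_num)
        have h9 : P = P ^ (15 / 16 : ℝ) * P ^ (1 / 16 : ℝ) := by
          rw [← Real.rpow_add hP0]; norm_num
        have h10 : (H2_g K : ℝ) ^ (-(3 / 4) : ℝ) =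
            (H2_g K : ℝ) ^ (1 / 4 : ℝ) / (H2_g K : ℝ) := by
          rw [show (-(3 / 4) : ℝ) = 1 / 4 - 1 by norm_num, Real.rpow_sub hg0, Real.rpow_one]
        rw [h10]
        have h11 : 3 * P / (H2_g K : ℝ) * H2_wt K = 3 * P ^ (15 / 16 : ℝ) *
            (H2_wt K * (P ^ (1 / 16 : ℝ) / (H2_g K : ℝ))) := by
          nth_rewrite 1 [h9]
          ring
        rw [h11]
        gcongr
      linarith
  refine (Finset.sum_le_sum h2).trans ?_
  rw [Finset.sum_add_distrib, ← Finset.mul_sum, ← Finset.mul_sum]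
  have h3 := H2_small w ⌊2 * P⌋₊ hw
  have h4 := hC₂ w ⌊2 * P⌋₊ (by omega)
  have h5 : ∑ K ∈ (Qs w ⌊2 * P⌋₊).powerset.erase ∅,
      (H2_wt K * (H2_g K : ℝ) ^ (-(3 / 4) : ℝ)) ≤
      ∑ K ∈ (Qs w ⌊2 * P⌋₊).powerset, (H2_wt K * (H2_g K : ℝ) ^ (-(3 / 4) : ℝ)) := by
    apply Finset.sum_le_sum_of_subset_of_nonneg (Finset.erase_subset _ _)
    intro K hK _
    have := H2_wt_nonneg K (fun l hl => (hmem K hK l hl).1)
    positivity
  have h6 : 0 ≤ 3 * P ^ (15 / 16 : ℝ) := by positivity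
  have h7 := mul_le_mul_of_nonneg_left h3 hT
  have h8 := mul_le_mul_of_nonneg_left (h5.trans h4) h6
  linarith

theorem H2_count (P : ℝ) (hP : 1 ≤ P) (S : Finset ℕ) (hS : S ⊆ Icc 1 ⌊P⌋₊) (g : ℕ) (hg : 1 ≤ g)
    (hgP : (g : ℝ) ≤ 2 * P) (c : ℕ) (h : ∀ q ∈ S, q ≡ c [MOD g]) :
    (S.card : ℝ) ≤ 3 * P / g := by
  have hP0 : 0 < P := by linarith
  have h1 : S.card ≤ (Finset.range (⌊P⌋₊ / g + 1)).card := by
    apply Finset.card_le_card_of_injOn (fun q => q / g)
    · intro q hq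
      have h2 := hS hq
      rw [Finset.mem_Icc] at h2
      simp only [Finset.coe_range, Set.mem_Iio]
      exact Nat.lt_succ_of_le (Nat.div_le_div_right h2.2)
    · intro q hq r hr hqr
      have h3 : q % g = r % g := (h q hq).trans (h r hr).symm
      simp only at hqr
      rw [← Nat.div_add_mod q g, ← Nat.div_add_mod r g, h3, hqr]
  rw [Finset.card_range] at h1
  have hg0 : (0 : ℝ) < (g : ℝ) := by exact_mod_cast hg
  have h2 : ((⌊P⌋₊ / g : ℕ) : ℝ) ≤ P / g := by
    refine Nat.cast_div_le.trans ?_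
    apply div_le_div_of_nonneg_right (Nat.floor_le hP0.le) hg0.le
  have h3 : (S.card : ℝ) ≤ ((⌊P⌋₊ / g : ℕ) : ℝ) + 1 := by exact_mod_cast h1
  have h4 : (1 : ℝ) ≤ 2 * P / g := by
    rw [le_div_iff₀ hg0]; linarith
  have h5 : 3 * P / g = P / g + 2 * P / g := by ring
  linarith

/-- the average over `q` -/
theorem H2_one (C₁ : ℝ) (hC₁ : 0 < C₁) (C₂ : ℝ) (hC₂ : ∀ w Z : ℕ, 2 ≤ w →
    ∑ K ∈ (Qs w Z).powerset, H2_wt K * (H2_g K : ℝ) ^ (-(3 / 4) : ℝ) ≤ C₂) (w : ℕ) (hw : 200 ≤ w)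
    (P : ℝ) (hP : 2 ≤ P) (b : ℕ)
    (hbt : ∀ g c : ℕ, g.Coprime (primorial w) → 1 ≤ g → (g : ℝ) ≤ P ^ (1 / 4 : ℝ) →
      c.Coprime g → ((((Ps (primorial w) b P).filter (fun q => q ≡ c [MOD g])).card : ℕ) : ℝ) ≤
        C₁ * P / ((Nat.totient (primorial w) : ℝ) * (Nat.totient g : ℝ) * Real.log P))
    (p : ℕ) (hp : p ∈ Ps (primorial w) b P) (m : ℕ → ℕ)
    (hm : ∀ q ∈ (Ps (primorial w) b P).erase p, m q ≠ 0)
    (hmP : ∀ q ∈ (Ps (primorial w) b P).erase p, (m q : ℝ) ≤ 2 * P)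
    (hc : ∀ g : ℕ, 1 ≤ g → ∃ c : ℕ, (p.Coprime g → c.Coprime g) ∧
      ∀ q ∈ (Ps (primorial w) b P).erase p, g ∣ m q → q ≡ c [MOD g])
    (hd : ∀ q ∈ (Ps (primorial w) b P).erase p, p ∣ m q → p ∣ q) :
    ∑ q ∈ (Ps (primorial w) b P).erase p, (Hd w 200 (m q) - 1) ≤
      C₁ * P / ((Nat.totient (primorial w) : ℝ) * Real.log P) * (1000 / w) +
        3 * C₂ * P ^ (15 / 16 : ℝ) := by
  have hlog : 0 < Real.log P := Real.log_pos (by linarith)
  have hmemP : ∀ q ∈ Ps (primorial w) b P, q.Prime ∧ 1 ≤ q ∧ q ≤ ⌊P⌋₊ := by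
    intro q hq
    unfold Ps at hq
    rw [Finset.mem_filter, Finset.mem_Icc] at hq
    exact ⟨hq.2.1, hq.1.1, hq.1.2⟩
  apply H2_core C₂ hC₂ w hw P _ (by linarith) (by positivity) _ m hm hmP
  · intro g hg1 hg2 hg3
    obtain ⟨c, hc1, hc2⟩ := hc g hg2
    by_cases hpg : p.Coprime g
    · have h1 := hbt g c hg1 hg2 hg3 (hc1 hpg)
      have h2 : ((((Ps (primorial w) b P).erase p).filter (fun q => g ∣ m q)).card) ≤
          ((Ps (primorial w) b P).filter (fun q => q ≡ c [MOD g])).card := by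
        apply Finset.card_le_card
        intro q hq
        rw [Finset.mem_filter] at hq ⊢
        exact ⟨Finset.mem_of_mem_erase hq.1, hc2 q hq.1 hq.2⟩
      refine le_trans (by exact_mod_cast h2) (h1.trans (le_of_eq ?_))
      rw [div_div]
      congr 1
      ring
    · have h1 : (((Ps (primorial w) b P).erase p).filter (fun q => g ∣ m q)) = ∅ := by
        rw [Finset.filter_eq_empty_iff]
        intro q hq hgq
        have h2 : p ∣ g := by
          rcases Nat.coprime_or_dvd_of_prime (hmemP p hp).1 g with h | h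
          · exact absurd h hpg
          · exact h
        have h3 := hd q hq (h2.trans hgq)
        have h4 := (Nat.prime_dvd_prime_iff_eq (hmemP p hp).1
          (hmemP q (Finset.mem_of_mem_erase hq)).1).mp h3
        exact (Finset.ne_of_mem_erase hq) h4.symm
      rw [h1, Finset.card_empty, Nat.cast_zero]
      positivity
  · intro g hg1
    obtain ⟨c, hc1, hc2⟩ := hc g hg1
    rcases (((Ps (primorial w) b P).erase p).filter (fun q => g ∣ m q)).eq_empty_or_nonempty with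
      h | h
    · rw [h, Finset.card_empty, Nat.cast_zero]
      positivity
    · obtain ⟨q, hq⟩ := h
      rw [Finset.mem_filter] at hq
      have hgP : (g : ℝ) ≤ 2 * P := by
        have h1 : g ≤ m q := Nat.le_of_dvd (Nat.pos_of_ne_zero (hm q hq.1)) hq.2
        exact le_trans (by exact_mod_cast h1) (hmP q hq.1)
      apply H2_count P (by linarith) _ _ g hg1 hgP c
      · intro r hr
        rw [Finset.mem_filter] at hr
        exact hc2 r hr.1 hr.2
      · intro r hr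
        rw [Finset.mem_filter] at hr
        rw [Finset.mem_Icc]
        exact (hmemP r (Finset.mem_of_mem_erase hr.1)).2

/-- the first average, from `Ps_bt` and `Ps_lower` -/
theorem Hd_avg_of
    (Ps_bt : ∃ C : ℝ, 0 < C ∧ ∀ w : ℕ, ∃ P₀ : ℝ, ∀ P : ℝ, P₀ ≤ P → ∀ b g c : ℕ,
      b.Coprime (primorial w) → g.Coprime (primorial w) → 1 ≤ g → (g : ℝ) ≤ P ^ (1 / 4 : ℝ) →
      c.Coprime g → ((((Ps (primorial w) b P).filter (fun q => q ≡ c [MOD g])).card : ℕ) : ℝ) ≤
        C * P / ((Nat.totient (primorial w) : ℝ) * (Nat.totient g : ℝ) * Real.log P))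
    (Ps_lower : ∀ w : ℕ, ∃ P₀ : ℝ, ∀ P : ℝ, P₀ ≤ P → ∀ b : ℕ, b.Coprime (primorial w) →
      P / (32 * (Nat.totient (primorial w) : ℝ) * Real.log P) ≤
        (((Ps (primorial w) b P).card : ℕ) : ℝ)) :
    ∃ C : ℝ, 0 < C ∧ ∀ w : ℕ, 200 ≤ w → ∃ P₀ : ℝ, ∀ P : ℝ, P₀ ≤ P →
    ∀ b : ℕ, b.Coprime (primorial w) →
      ∑ p ∈ Ps (primorial w) b P, ∑ q ∈ (Ps (primorial w) b P).erase p,
        (Hd w 200 ((p : ℤ) - q).natAbs - 1) ≤ C / w * ((Ps (primorial w) b P).card : ℝ) ^ 2 ∧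
      ∑ p ∈ Ps (primorial w) b P, ∑ q ∈ (Ps (primorial w) b P).erase p,
        (Hd w 200 (p + q) - 1) ≤ C / w * ((Ps (primorial w) b P).card : ℝ) ^ 2 := by
  obtain ⟨C₁, hC₁, hbt⟩ := Ps_bt
  obtain ⟨C₂, hC₂0, hC₂⟩ := H2_large
  refine ⟨32000 * C₁ + 1, by positivity, ?_⟩
  intro w hw
  obtain ⟨P₁, hP₁⟩ := hbt w
  obtain ⟨P₂, hP₂⟩ := Ps_lower w
  have hwR : (200 : ℝ) ≤ (w : ℝ) := by exact_mod_cast hw
  have hW : 0 < primorial w := primorial_pos w
  set φ : ℝ := (Nat.totient (primorial w) : ℝ) with hφ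
  have hφ0 : 0 < φ := by
    rw [hφ]
    exact_mod_cast Nat.totient_pos.mpr hW
  have hlim := isLittleO_log_rpow_atTop (show (0 : ℝ) < 1 / 16 by norm_num)
  have hev : ∀ᶠ P : ℝ in Filter.atTop, Real.log P ≤ 1 / (96 * C₂ * w * φ) * P ^ (1 / 16 : ℝ) := by
    have h1 := hlim.bound (show (0 : ℝ) < 1 / (96 * C₂ * w * φ) by positivity)
    filter_upwards [h1, Filter.eventually_ge_atTop (1 : ℝ)] with P hP hP1
    rw [Real.norm_of_nonneg (Real.log_nonneg hP1), Real.norm_of_nonneg (by positivity)] at hP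
    exact hP
  obtain ⟨P₃, hP₃⟩ := Filter.eventually_atTop.mp hev
  refine ⟨max (max P₁ P₂) (max P₃ 2), ?_⟩
  intro P hP b hb
  have hP1 : P₁ ≤ P := le_trans (le_trans (le_max_left _ _) (le_max_left _ _)) hP
  have hP2 : P₂ ≤ P := le_trans (le_trans (le_max_right _ _) (le_max_left _ _)) hP
  have hP3 : P₃ ≤ P := le_trans (le_trans (le_max_left _ _) (le_max_right _ _)) hP
  have hP4 : 2 ≤ P := le_trans (le_trans (le_max_right _ _) (le_max_right _ _)) hP
  have hlog : 0 < Real.log P := Real.log_pos (by linarith)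
  have hbt' := fun g c => hP₁ P hP1 b g c hb
  have hlow := hP₂ P hP2 b hb
  set N : ℝ := (((Ps (primorial w) b P).card : ℕ) : ℝ) with hN
  -- bound for a single p
  have hmain : C₁ * P / (φ * Real.log P) * (1000 / w) + 3 * C₂ * P ^ (15 / 16 : ℝ) ≤
      (32000 * C₁ + 1) / w * N := by
    have h1 : P / (φ * Real.log P) ≤ 32 * N := by
      have h2 : P / (φ * Real.log P) = 32 * (P / (32 * φ * Real.log P)) := by
        field_simp
      rw [h2]
      linarith
    have h2 : C₁ * P / (φ * Real.log P) * (1000 / w) ≤ 32000 * C₁ / w * N := by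
      have h3 : C₁ * P / (φ * Real.log P) * (1000 / w) =
          (C₁ * (1000 / w)) * (P / (φ * Real.log P)) := by ring
      have h4 : 32000 * C₁ / w * N = (C₁ * (1000 / w)) * (32 * N) := by ring
      rw [h3, h4]
      exact mul_le_mul_of_nonneg_left h1 (by positivity)
    have h5 : 3 * C₂ * P ^ (15 / 16 : ℝ) ≤ 1 / w * N := by
      have h6 := hP₃ P hP3
      have hP0 : 0 < P := by linarith
      have h9 : P = P ^ (15 / 16 : ℝ) * P ^ (1 / 16 : ℝ) := by
        rw [← Real.rpow_add hP0]; norm_num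
      have h10 : 96 * C₂ * w * φ * Real.log P ≤ P ^ (1 / 16 : ℝ) := by
        have h11 : 96 * C₂ * w * φ * Real.log P ≤
            96 * C₂ * w * φ * (1 / (96 * C₂ * w * φ) * P ^ (1 / 16 : ℝ)) :=
          mul_le_mul_of_nonneg_left h6 (by positivity)
        have h12 : 96 * C₂ * w * φ * (1 / (96 * C₂ * w * φ) * P ^ (1 / 16 : ℝ)) =
            P ^ (1 / 16 : ℝ) := by
          have : 96 * C₂ * w * φ ≠ 0 := by positivity
          field_simp
        linarith
      have h13 : 3 * C₂ * P ^ (15 / 16 : ℝ) ≤ 1 / w * (P / (32 * φ * Real.log P)) := by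
        rw [one_div_mul_eq_div, le_div_iff₀ (by positivity), le_div_iff₀ (by positivity)]
        calc 3 * C₂ * P ^ (15 / 16 : ℝ) * w * (32 * φ * Real.log P)
            = P ^ (15 / 16 : ℝ) * (96 * C₂ * w * φ * Real.log P) := by ring
          _ ≤ P ^ (15 / 16 : ℝ) * P ^ (1 / 16 : ℝ) :=
              mul_le_mul_of_nonneg_left h10 (by positivity)
          _ = P := h9.symm
      refine h13.trans ?_
      exact mul_le_mul_of_nonneg_left hlow (by positivity)
    have h14 : (32000 * C₁ + 1) / w * N = 32000 * C₁ / w * N + 1 / w * N := by ring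
    linarith
  have hmemP : ∀ q ∈ Ps (primorial w) b P, q.Prime ∧ (q : ℝ) ≤ P := by
    intro q hq
    unfold Ps at hq
    rw [Finset.mem_filter, Finset.mem_Icc] at hq
    exact ⟨hq.2.1, le_trans (by exact_mod_cast hq.1.2) (Nat.floor_le (by linarith))⟩
  constructor
  · have h1 : ∀ p ∈ Ps (primorial w) b P, ∑ q ∈ (Ps (primorial w) b P).erase p,
        (Hd w 200 ((p : ℤ) - q).natAbs - 1) ≤ (32000 * C₁ + 1) / w * N := by
      intro p hp
      refine (H2_one C₁ hC₁ C₂ hC₂ w hw P hP4 b hbt' p hp (fun q => ((p : ℤ) - q).natAbs) ?_ ?_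
        ?_ ?_).trans hmain
      · intro q hq h0
        have h2 := Finset.ne_of_mem_erase hq
        rw [Int.natAbs_eq_zero] at h0
        omega
      · intro q hq
        have h2 := (hmemP q (Finset.mem_of_mem_erase hq)).2
        have h3 := (hmemP p hp).2
        have h4 : (((p : ℤ) - q).natAbs : ℝ) = |(p : ℝ) - q| := by
          rw [Nat.cast_natAbs]
          push_cast
          rfl
        rw [h4, abs_le]
        have h5 : (0 : ℝ) ≤ (p : ℝ) := by positivity
        have h6 : (0 : ℝ) ≤ (q : ℝ) := by positivity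
        constructor <;> linarith
      · intro g hg
        refine ⟨p, fun h => h, ?_⟩
        intro q hq hgq
        have h2 : (g : ℤ) ∣ (p : ℤ) - q := Int.natCast_dvd.mpr hgq
        exact (Nat.modEq_iff_dvd.mpr h2)
      · intro q hq hpq
        have h2 : (p : ℤ) ∣ (p : ℤ) - q := Int.natCast_dvd.mpr hpq
        have h3 : (p : ℤ) ∣ (q : ℤ) := (dvd_sub_right (dvd_refl (p : ℤ))).mp h2
        exact_mod_cast h3
    calc _ ≤ ∑ p ∈ Ps (primorial w) b P, (32000 * C₁ + 1) / w * N := Finset.sum_le_sum h1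
      _ = _ := by
          rw [Finset.sum_const, nsmul_eq_mul]
          ring
  · have h1 : ∀ p ∈ Ps (primorial w) b P, ∑ q ∈ (Ps (primorial w) b P).erase p,
        (Hd w 200 (p + q) - 1) ≤ (32000 * C₁ + 1) / w * N := by
      intro p hp
      refine (H2_one C₁ hC₁ C₂ hC₂ w hw P hP4 b hbt' p hp (fun q => p + q) ?_ ?_
        ?_ ?_).trans hmain
      · intro q hq h0
        have h2 := (hmemP p hp).1.pos
        omega
      · intro q hq
        have h2 := (hmemP q (Finset.mem_of_mem_erase hq)).2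
        have h3 := (hmemP p hp).2
        push_cast
        linarith
      · intro g hg
        refine ⟨(g - 1) * p, ?_, ?_⟩
        · intro h
          apply Nat.Coprime.mul_left _ h
          rcases Nat.eq_or_lt_of_le hg with h1 | h1
          · rw [← h1]
            exact Nat.coprime_one_right _
          · have := (Nat.coprime_self_sub_left (show 1 ≤ g from hg)).mpr (Nat.coprime_one_left g)
            exact this
        · intro q hq hgq
          have h3 : q + p ≡ (g - 1) * p + p [MOD g] := by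
            have h4 : (g - 1) * p + p = g * p := by
              nth_rewrite 2 [← one_mul p]
              rw [← add_mul, Nat.sub_add_cancel hg]
            rw [h4, add_comm]
            exact ((Nat.modEq_zero_iff_dvd.mpr hgq).trans
              (Nat.modEq_zero_iff_dvd.mpr (dvd_mul_right g p)).symm)
          exact Nat.ModEq.add_right_cancel' p h3
      · intro q hq hpq
        exact (Nat.dvd_add_right (dvd_refl p)).mp hpq
    calc _ ≤ ∑ p ∈ Ps (primorial w) b P, (32000 * C₁ + 1) / w * N := Finset.sum_le_sum h1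
      _ = _ := by
          rw [Finset.sum_const, nsmul_eq_mul]
          ring

/-- the average of the correlation factor, from `Hd_avg` and `Cf_le` -/
theorem pair_avg_of
    (Hd_avg : ∃ C : ℝ, 0 < C ∧ ∀ w : ℕ, 200 ≤ w → ∃ P₀ : ℝ, ∀ P : ℝ, P₀ ≤ P →
    ∀ b : ℕ, b.Coprime (primorial w) →
      ∑ p ∈ Ps (primorial w) b P, ∑ q ∈ (Ps (primorial w) b P).erase p,
        (Hd w 200 ((p : ℤ) - q).natAbs - 1) ≤ C / w * ((Ps (primorial w) b P).card : ℝ) ^ 2 ∧
      ∑ p ∈ Ps (primorial w) b P, ∑ q ∈ (Ps (primorial w) b P).erase p,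
        (Hd w 200 (p + q) - 1) ≤ C / w * ((Ps (primorial w) b P).card : ℝ) ^ 2)
    (Cf_le : ∃ C : ℝ, 0 < C ∧ ∀ w : ℕ, 200 ≤ w → ∀ Q : Finset ℕ, (∀ l ∈ Q, l.Prime ∧ w < l) →
      ∀ p q : ℕ, p.Prime → q.Prime → p ≠ q →
        Cf Q p q - 1 ≤ C / w + (Hd w 200 ((p : ℤ) - q).natAbs - 1) + (Hd w 200 (p + q) - 1)) :
    ∃ C : ℝ, 0 < C ∧ ∀ w : ℕ, 200 ≤ w → ∃ P₀ : ℝ, ∀ P : ℝ, P₀ ≤ P →
    ∀ b : ℕ, b.Coprime (primorial w) → ∀ Q : Finset ℕ, (∀ l ∈ Q, l.Prime ∧ w < l) →
      ∑ p ∈ Ps (primorial w) b P, ∑ q ∈ (Ps (primorial w) b P).erase p, (Cf Q p q - 1) ≤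
        C / w * ((Ps (primorial w) b P).card : ℝ) ^ 2 := by
  obtain ⟨C₁, hC₁, h1⟩ := Hd_avg
  obtain ⟨C₂, hC₂, h2⟩ := Cf_le
  refine ⟨C₂ + 2 * C₁, by positivity, ?_⟩
  intro w hw
  obtain ⟨P₀, hP₀⟩ := h1 w hw
  refine ⟨P₀, ?_⟩
  intro P hP b hb Q hQ
  obtain ⟨h3, h4⟩ := hP₀ P hP b hb
  have hmemP : ∀ q ∈ Ps (primorial w) b P, q.Prime := by
    intro q hq
    unfold Ps at hq
    rw [Finset.mem_filter] at hq
    exact hq.2.1
  have h5 : ∑ p ∈ Ps (primorial w) b P, ∑ q ∈ (Ps (primorial w) b P).erase p, (Cf Q p q - 1) ≤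
      ∑ p ∈ Ps (primorial w) b P, ∑ q ∈ (Ps (primorial w) b P).erase p,
        (C₂ / w + (Hd w 200 ((p : ℤ) - q).natAbs - 1) + (Hd w 200 (p + q) - 1)) := by
    apply Finset.sum_le_sum
    intro p hp
    apply Finset.sum_le_sum
    intro q hq
    exact h2 w hw Q hQ p q (hmemP p hp) (hmemP q (Finset.mem_of_mem_erase hq))
      (Finset.ne_of_mem_erase hq).symm
  refine h5.trans ?_
  simp only [Finset.sum_add_distrib]
  have h6 : ∑ p ∈ Ps (primorial w) b P, ∑ q ∈ (Ps (primorial w) b P).erase p, C₂ / (w : ℝ) ≤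
      C₂ / w * ((Ps (primorial w) b P).card : ℝ) ^ 2 := by
    calc _ ≤ ∑ p ∈ Ps (primorial w) b P, ((Ps (primorial w) b P).card : ℝ) * (C₂ / (w : ℝ)) := by
          apply Finset.sum_le_sum
          intro p hp
          rw [Finset.sum_const, nsmul_eq_mul]
          apply mul_le_mul_of_nonneg_right _ (by positivity)
          exact_mod_cast Finset.card_le_card (Finset.erase_subset _ _)
      _ = _ := by
          rw [Finset.sum_const, nsmul_eq_mul]
          ring
  have h7 : (C₂ + 2 * C₁) / w * ((Ps (primorial w) b P).card : ℝ) ^ 2 =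
      C₂ / w * ((Ps (primorial w) b P).card : ℝ) ^ 2 +
        C₁ / w * ((Ps (primorial w) b P).card : ℝ) ^ 2 +
        C₁ / w * ((Ps (primorial w) b P).card : ℝ) ^ 2 := by ring
  rw [h7]
  linarith

end Pool.Agent.helper71.AA
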